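import Pool.Agent.P8H39.TI.Stm4

/-!
# Project TI, package STAR3
-/

set_option autoImplicit false

namespace Pool.Agent.P8H71.TI

open Finset Pool.Agent.P8H39.TI

/-- the number of multisets -/
lemma choose_le (t m : ℕ) (ht : 1 ≤ t) : (t + m - 1).choose m ≤ t ^ m := by
  induction m with
  | zero => simp
  | succ m ih =>
    have h1 := Nat.add_one_mul_choose_eq (t + m - 1) m
    have e1 : t + m - 1 + 1 = t + m := by omega
    have e2 : t + (m + 1) - 1 = t + m := by omega
    rw [e1] at h1
    rw [e2]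
    have h2 : (t + m) ≤ t * (m + 1) := by nlinarith
    have h3 : (t + m).choose (m + 1) * (m + 1) ≤ t ^ (m + 1) * (m + 1) := by
      rw [← h1]
      calc (t + m) * (t + m - 1).choose m ≤ (t * (m + 1)) * t ^ m := Nat.mul_le_mul h2 ih
        _ = t ^ (m + 1) * (m + 1) := by ring
    exact Nat.le_of_mul_le_mul_right h3 (Nat.succ_pos m)

lemma desc_le (κ N m : ℕ) (h : κ ≤ N) :
    κ.descFactorial m * N ^ m ≤ κ ^ m * N.descFactorial m := by
  induction m with
  | zero => simp
  | succ m ih =>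
    rw [Nat.descFactorial_succ, Nat.descFactorial_succ, pow_succ, pow_succ]
    have h1 : (κ - m) * N ≤ κ * (N - m) := by
      rw [Nat.sub_mul, Nat.mul_sub]
      exact Nat.sub_le_sub_left (by rw [mul_comm κ m]; exact Nat.mul_le_mul_left m h) _
    calc (κ - m) * κ.descFactorial m * (N ^ m * N) = ((κ - m) * N) * (κ.descFactorial m * N ^ m) := by ring
      _ ≤ (κ * (N - m)) * (κ ^ m * N.descFactorial m) := Nat.mul_le_mul h1 ih
      _ = _ := by ring

lemma asc_le (κ N T : ℕ) :
    (N + κ + 1).ascFactorial T * N ^ T ≤ (N + κ) ^ T * (N + 1).ascFactorial T := by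
  induction T with
  | zero => simp
  | succ T ih =>
    rw [Nat.ascFactorial_succ, Nat.ascFactorial_succ, pow_succ, pow_succ]
    have h1 : (N + κ + 1 + T) * N ≤ (N + κ) * (N + 1 + T) := by nlinarith [Nat.zero_le (κ * T)]
    calc (N + κ + 1 + T) * (N + κ + 1).ascFactorial T * (N ^ T * N)
        = ((N + κ + 1 + T) * N) * ((N + κ + 1).ascFactorial T * N ^ T) := by ring
      _ ≤ ((N + κ) * (N + 1 + T)) * ((N + κ) ^ T * (N + 1).ascFactorial T) := Nat.mul_le_mul h1 ih
      _ = _ := by ring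

/-- `6^m (κ)_m C(t+m-1,m) ≤ (N)_m` -/
lemma first_le (t m κ N : ℕ) (ht : 1 ≤ t) (hN : 0 < N) (h6 : 6 * (t * κ) ≤ N) :
    6 ^ m * (κ.descFactorial m * (t + m - 1).choose m) ≤ N.descFactorial m := by
  have hκN : κ ≤ N := by nlinarith
  have h1 := desc_le κ N m hκN
  have h2 := choose_le t m ht
  have h3 : (6 * (t * κ)) ^ m ≤ N ^ m := Nat.pow_le_pow_left h6 m
  refine Nat.le_of_mul_le_mul_right (c := N ^ m) ?_ (Nat.pow_pos hN)
  calc 6 ^ m * (κ.descFactorial m * (t + m - 1).choose m) * N ^ m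
      = 6 ^ m * (t + m - 1).choose m * (κ.descFactorial m * N ^ m) := by ring
    _ ≤ 6 ^ m * t ^ m * (κ ^ m * N.descFactorial m) :=
        Nat.mul_le_mul (Nat.mul_le_mul_left _ h2) h1
    _ = (6 * (t * κ)) ^ m * N.descFactorial m := by
        rw [mul_pow, mul_pow]
        ring
    _ ≤ N ^ m * N.descFactorial m := Nat.mul_le_mul_right _ h3
    _ = _ := by ring

/-- `(1 + κ/N)^T ≤ 6/5` -/
lemma pow_le (T κ N : ℕ) (hN : 0 < N) (h6 : 6 * (T * κ) ≤ N) :
    ((N : ℝ) + κ) ^ T * 5 ≤ 6 * (N : ℝ) ^ T := by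
  have hNr : (0 : ℝ) < N := by exact_mod_cast hN
  have hκ0 : (0 : ℝ) ≤ κ := Nat.cast_nonneg κ
  have hT0 : (0 : ℝ) ≤ T := Nat.cast_nonneg T
  have h6r : 6 * ((T : ℝ) * κ) ≤ N := by exact_mod_cast h6
  have hd : (0 : ℝ) < (N : ℝ) + κ := by linarith
  have h1 := one_add_mul_le_pow (a := -((κ : ℝ) / ((N : ℝ) + κ))) (by
    have : (κ : ℝ) / ((N : ℝ) + κ) ≤ 1 := (div_le_one hd).2 (by linarith)
    linarith) T
  have h2 : 1 + -((κ : ℝ) / ((N : ℝ) + κ)) = (N : ℝ) / ((N : ℝ) + κ) := by
    field_simp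
    ring
  rw [h2, div_pow] at h1
  have h3 : (5 : ℝ) / 6 ≤ 1 + T * -((κ : ℝ) / ((N : ℝ) + κ)) := by
    have h4 : (T : ℝ) * ((κ : ℝ) / ((N : ℝ) + κ)) ≤ 1 / 6 := by
      rw [← mul_div_assoc, div_le_iff₀ hd]
      linarith
    linarith
  have h5 := h3.trans h1
  rw [le_div_iff₀ (by positivity)] at h5
  linarith

/-- package STAR3 -/
theorem t_STAR3 : S_STAR3 := by
  intro t m κ N ht hm hmκ hκ hN
  have h6N : 6 * ((t + 1) * κ) ≤ N := by nlinarith
  have hNpos : 0 < N := by nlinarith
  have h6 : 6 * (t * κ) ≤ N := by nlinarith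
  have hmN : m ≤ N := by nlinarith
  obtain ⟨T, rfl⟩ : ∃ T, t = T + 1 := ⟨t - 1, by omega⟩
  have h6T : 6 * (T * κ) ≤ N := by nlinarith
  have hNr : (0 : ℝ) < N := by exact_mod_cast hNpos
  have hA := first_le (T + 1) m κ N ht hNpos h6
  have hAr : (6 : ℝ) ^ m * ((κ.descFactorial m : ℝ) * ((T + 1 + m - 1).choose m : ℝ)) ≤
      (N.descFactorial m : ℝ) := by exact_mod_cast hA
  have hP := pow_le T κ N hNpos h6T
  constructor
  · -- the first part
    have h1 : (6 : ℝ) * ((κ.descFactorial m : ℝ) * ((T + 1 + m - 1).choose m : ℝ)) ≤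
        (N.descFactorial m : ℝ) := by
      refine le_trans ?_ hAr
      have : (6 : ℝ) ≤ 6 ^ m := le_self_pow₀ (by norm_num) (by omega)
      exact mul_le_mul_of_nonneg_right this (by positivity)
    have h2 : 5 * ((N + κ + (T + 1) - m).descFactorial (T + 1 - 1) : ℝ) ≤
        6 * ((N + T).descFactorial T : ℝ) := by
      have h3 : (N + κ + (T + 1) - m).descFactorial (T + 1 - 1) ≤ (N + κ + T).descFactorial T :=
        Nat.descFactorial_le T (by omega)
      have h3r : ((N + κ + (T + 1) - m).descFactorial (T + 1 - 1) : ℝ) ≤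
          ((N + κ + T).descFactorial T : ℝ) := by exact_mod_cast h3
      have h4 : ((N + κ + T).descFactorial T : ℝ) * (N : ℝ) ^ T ≤
          ((N : ℝ) + κ) ^ T * ((N + T).descFactorial T : ℝ) := by
        have h5 := asc_le κ N T
        rw [← Nat.add_descFactorial_eq_ascFactorial, ← Nat.add_descFactorial_eq_ascFactorial] at h5
        exact_mod_cast h5
      have hNT : (0 : ℝ) < (N : ℝ) ^ T := by positivity
      have h7 : 5 * ((N + κ + T).descFactorial T : ℝ) * (N : ℝ) ^ T ≤
          6 * ((N + T).descFactorial T : ℝ) * (N : ℝ) ^ T := by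
        calc 5 * ((N + κ + T).descFactorial T : ℝ) * (N : ℝ) ^ T
            = 5 * (((N + κ + T).descFactorial T : ℝ) * (N : ℝ) ^ T) := by ring
          _ ≤ 5 * (((N : ℝ) + κ) ^ T * ((N + T).descFactorial T : ℝ)) := by linarith
          _ = (((N : ℝ) + κ) ^ T * 5) * ((N + T).descFactorial T : ℝ) := by ring
          _ ≤ (6 * (N : ℝ) ^ T) * ((N + T).descFactorial T : ℝ) :=
              mul_le_mul_of_nonneg_right hP (Nat.cast_nonneg _)
          _ = _ := by ring
      have h8 := le_of_mul_le_mul_right h7 hNT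
      linarith
    have h3 : 7 * ((N : ℝ) + κ + ((T + 1 : ℕ) : ℝ) + 1) ≤ 8 * ((N : ℝ) + (T + 1)) := by
      have h4 : 7 * (κ + 1) ≤ N + (T + 1) := by nlinarith
      have h4r : 7 * ((κ : ℝ) + 1) ≤ N + (T + 1) := by exact_mod_cast h4
      push_cast
      linarith
    have h4 : (((N + (T + 1)).descFactorial (T + 1 + m) : ℕ) : ℝ) =
        ((N : ℝ) + (T + 1)) * ((N + T).descFactorial T : ℝ) * (N.descFactorial m : ℝ) := by
      have h5 := Nat.descFactorial_mul_descFactorial (k := T + 1) (m := T + 1 + m) (n := N + (T + 1))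
        (by omega)
      rw [Nat.add_sub_cancel, Nat.add_sub_cancel_left] at h5
      have h6' : (N + (T + 1)).descFactorial (T + 1) = (N + T + 1) * (N + T).descFactorial T :=
        Nat.succ_descFactorial_succ _ _
      rw [← h5, h6']
      push_cast
      ring
    rw [h4]
    set A : ℝ := (κ.descFactorial m : ℝ) * ((T + 1 + m - 1).choose m : ℝ) with hAdef
    set B : ℝ := (N.descFactorial m : ℝ) with hBdef
    set x : ℝ := (N : ℝ) + κ + ((T + 1 : ℕ) : ℝ) + 1 with hx
    set y : ℝ := (N : ℝ) + (T + 1) with hy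
    set D : ℝ := ((N + κ + (T + 1) - m).descFactorial (T + 1 - 1) : ℝ) with hD
    set S : ℝ := ((N + T).descFactorial T : ℝ) with hS
    have hA0 : 0 ≤ A := by positivity
    have hB0 : 0 ≤ B := by positivity
    have hx0 : 0 ≤ x := by positivity
    have hy0 : 0 ≤ y := by positivity
    have hD0 : 0 ≤ D := by positivity
    have hS0 : 0 ≤ S := by positivity
    have e1 : A * x ≤ B / 6 * (8 / 7 * y) :=
      mul_le_mul (by linarith) (by linarith) hx0 (by positivity)
    have e2 : A * x * D ≤ (B / 6 * (8 / 7 * y)) * (6 / 5 * S) :=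
      mul_le_mul e1 (by linarith) hD0 (by positivity)
    have e3 : 0 ≤ B * y * S := by positivity
    calc A * x * D ≤ (B / 6 * (8 / 7 * y)) * (6 / 5 * S) := e2
      _ = 8 / 35 * (B * y * S) := by ring
      _ ≤ 1 / 4 * (B * y * S) := by linarith
      _ = 1 / 4 * (y * S * B) := by ring
  · -- the second part
    intro hm2
    obtain ⟨m, rfl⟩ : ∃ m', m = m' + 2 := ⟨m - 2, by omega⟩
    obtain ⟨j, rfl⟩ : ∃ j, κ = m + 2 + j := ⟨κ - (m + 2), by omega⟩
    have hD : (0 : ℝ) < (N.descFactorial (m + 2) : ℝ) := by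
      exact_mod_cast Nat.descFactorial_pos.2 hmN
    set u : ℕ → ℝ := fun a => (T.choose a : ℝ) * (j.descFactorial a : ℝ) /
      ((N + 1).ascFactorial a : ℝ) with hu
    set K : ℝ := ((T + (m + 2)).choose (m + 2) : ℝ) * ((m + 2 + j).descFactorial (m + 2) : ℝ) /
      (N.descFactorial (m + 2) : ℝ) with hK
    have hu0 : ∀ a, 0 ≤ u a := fun a => by
      rw [hu]
      positivity
    have hK0 : 0 ≤ K := by
      rw [hK]
      positivity
    have hK1 : K ≤ 1 / 36 := by
      rw [hK, div_le_iff₀ hD]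
      have e1 : T + 1 + (m + 2) - 1 = T + (m + 2) := by omega
      rw [e1] at hAr
      have h36 : (36 : ℝ) ≤ 6 ^ (m + 2) := by
        have : (6 : ℝ) ^ 2 ≤ 6 ^ (m + 2) := pow_le_pow_right₀ (by norm_num) (by omega)
        linarith
      have h0 : 0 ≤ ((m + 2 + j).descFactorial (m + 2) : ℝ) * ((T + (m + 2)).choose (m + 2) : ℝ) := by
        positivity
      have := mul_le_mul_of_nonneg_right h36 h0
      linarith
    -- the terms
    have hterm : ∀ a, ((m + 2 + a - 1).choose a : ℝ) * ((T + 1 + (m + 2) - 1).choose (m + 2 + a) : ℝ) *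
        ((m + 2 + j).descFactorial (m + 2 + a) : ℝ) / ((N + a).descFactorial (m + 2 + a) : ℝ) ≤
        K * u a := by
      intro a
      have e0 : m + 2 + a - 1 = m + 1 + a := by omega
      have e1 : T + 1 + (m + 2) - 1 = T + (m + 2) := by omega
      have h1 : (m + 2 + a) * (m + 1 + a).choose a = (m + 2) * (m + 2 + a).choose (m + 2) := by
        have h2 := Nat.add_one_mul_choose_eq (m + 1 + a) (m + 1)
        have h3 : (m + 1 + a).choose (m + 1) = (m + 1 + a).choose a := Nat.choose_symm_add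
        rw [h3] at h2
        have h4 : m + 1 + a + 1 = m + 2 + a := by omega
        have h5 : m + 1 + 1 = m + 2 := rfl
        rw [h4, h5] at h2
        rw [h2]
        ring
      have h1' : (m + 1 + a).choose a ≤ (m + 2 + a).choose (m + 2) := by
        have h5 : (m + 2 + a) * (m + 1 + a).choose a ≤ (m + 2 + a) * (m + 2 + a).choose (m + 2) := by
          rw [h1]
          exact Nat.mul_le_mul_right _ (by omega)
        exact Nat.le_of_mul_le_mul_left h5 (by omega)
      have h2 : (T + (m + 2)).choose (m + 2 + a) * (m + 2 + a).choose (m + 2) =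
          (T + (m + 2)).choose (m + 2) * T.choose a := by
        have h3 := Nat.choose_mul (n := T + (m + 2)) (k := m + 2 + a) (s := m + 2) (by omega)
        rwa [Nat.add_sub_cancel, Nat.add_sub_cancel_left] at h3
      have h3 : j.descFactorial a * (m + 2 + j).descFactorial (m + 2) =
          (m + 2 + j).descFactorial (m + 2 + a) := by
        have h4 := Nat.descFactorial_mul_descFactorial (k := m + 2) (m := m + 2 + a) (n := m + 2 + j)
          (by omega)
        rwa [Nat.add_sub_cancel_left, Nat.add_sub_cancel_left] at h4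
      have h4 : N.descFactorial (m + 2) * (N + 1).ascFactorial a =
          (N + a).descFactorial (m + 2 + a) := by
        have h5 := Nat.descFactorial_mul_descFactorial (k := a) (m := m + 2 + a) (n := N + a) (by omega)
        rwa [Nat.add_sub_cancel, Nat.add_sub_cancel, Nat.add_descFactorial_eq_ascFactorial] at h5
      have h2r : ((m + 2 + a).choose (m + 2) : ℝ) * ((T + (m + 2)).choose (m + 2 + a) : ℝ) =
          ((T + (m + 2)).choose (m + 2) : ℝ) * (T.choose a : ℝ) := by
        rw [mul_comm]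
        exact_mod_cast h2
      have h1r : ((m + 1 + a).choose a : ℝ) ≤ ((m + 2 + a).choose (m + 2) : ℝ) := by
        exact_mod_cast h1'
      rw [e0, e1, ← h3, ← h4, hK, hu]
      have hA : (0 : ℝ) < ((N + 1).ascFactorial a : ℝ) := by
        exact_mod_cast Nat.ascFactorial_pos _ _
      push_cast
      rw [div_mul_div_comm]
      refine div_le_div_of_nonneg_right ?_ (by positivity)
      have h6' : ((m + 1 + a).choose a : ℝ) * ((T + (m + 2)).choose (m + 2 + a) : ℝ) ≤
          ((T + (m + 2)).choose (m + 2) : ℝ) * (T.choose a : ℝ) := by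
        rw [← h2r]
        exact mul_le_mul_of_nonneg_right h1r (Nat.cast_nonneg _)
      calc _ ≤ (((T + (m + 2)).choose (m + 2) : ℝ) * (T.choose a : ℝ)) *
            ((j.descFactorial a : ℝ) * ((m + 2 + j).descFactorial (m + 2) : ℝ)) :=
            mul_le_mul_of_nonneg_right h6' (by positivity)
        _ = _ := by ring
    have hsum : TT (T + 1) (m + 2) (m + 2 + j) N ≤ K * ∑ a ∈ range (T + 1), u a := by
      rw [TT, mul_sum]
      exact sum_le_sum fun a _ => hterm a
    have hul : ∀ a, u a ≤ ((j : ℝ) / N) ^ a * 1 ^ (T - a) * (T.choose a : ℝ) := by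
      intro a
      have h1 : (j.descFactorial a : ℝ) ≤ (j : ℝ) ^ a := by
        exact_mod_cast Nat.descFactorial_le_pow j a
      have h2 : (N : ℝ) ^ a ≤ ((N + 1).ascFactorial a : ℝ) := by
        have h3 := Nat.pow_succ_le_ascFactorial (N + 1) a
        have h4 : N ^ a ≤ (N + 1).ascFactorial a :=
          (Nat.pow_le_pow_left (Nat.le_succ N) a).trans h3
        exact_mod_cast h4
      have hA : (0 : ℝ) < ((N + 1).ascFactorial a : ℝ) := by
        exact_mod_cast Nat.ascFactorial_pos _ _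
      rw [hu, one_pow, mul_one, div_pow]
      have h5 : (j.descFactorial a : ℝ) / ((N + 1).ascFactorial a : ℝ) ≤ (j : ℝ) ^ a / (N : ℝ) ^ a :=
        div_le_div₀ (by positivity) h1 (by positivity) h2
      calc (T.choose a : ℝ) * (j.descFactorial a : ℝ) / ((N + 1).ascFactorial a : ℝ)
          = (T.choose a : ℝ) * ((j.descFactorial a : ℝ) / ((N + 1).ascFactorial a : ℝ)) := by ring
        _ ≤ (T.choose a : ℝ) * ((j : ℝ) ^ a / (N : ℝ) ^ a) :=
            mul_le_mul_of_nonneg_left h5 (Nat.cast_nonneg _)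
        _ = _ := by ring
    have hsum2 : ∑ a ∈ range (T + 1), u a ≤ 6 / 5 := by
      refine (sum_le_sum fun a _ => hul a).trans ?_
      rw [← add_pow]
      have h1 := pow_le T j N hNpos (by nlinarith)
      have h2 : (j : ℝ) / N + 1 = ((N : ℝ) + j) / N := by
        field_simp
        ring
      rw [h2, div_pow, div_le_iff₀ (by positivity)]
      linarith
    have hs0 : 0 ≤ ∑ a ∈ range (T + 1), u a := sum_nonneg fun a _ => hu0 a
    nlinarith

end Pool.Agent.P8H71.TI
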